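import Pool.Agent.P.MP_db6017_lc.Q1.Ideal

namespace Pool.Agent.Results.MP_db6017_lc.NotProvable

open Pool.Agent.P.MP_db6017_lc.Q1 Filter

/-- There is an ω-model of RCA₀ in which Hindman's theorem for sums of exactly two elements and two
colours holds, while Ramsey's theorem for pairs and two colours fails, even in its stable form. -/
theorem result : ∃ (S : Set (Set ℕ)) (h : S.Nonempty),
    (∀ φ, RCA0 φ → (omegaModel S h).Valid φ) ∧ (omegaModel S h).Valid HT ∧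
      (omegaModel S h).Valid SRT.not ∧ (omegaModel S h).Valid RT.not := by
  obtain ⟨f, g, hf, hst, h0, hno⟩ := exists_instance
  obtain ⟨Zs, hadm, hmono, hsol⟩ := exists_ideal h0
  have hs : CI (Zs 0) Nat.sqrt := ci_of_primrec Primrec.nat_sqrt
  have hf' : CI (Zs 0) fun w : ℕ × ℕ => f w.1 w.2 := ci_of_primrec hf
  obtain ⟨c, hc, hcf⟩ : ∃ c : ℕ → Bool, CI (Zs 0) c ∧
      ∀ x y, c ((x + y) * (x + y) + x) = f x y :=
    ⟨fun n => f (n - n.sqrt * n.sqrt) (n.sqrt - (n - n.sqrt * n.sqrt)), by fun_prop, fun x y => by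
      simp only [Nat.sqrt_add_eq (x + y) (show x ≤ x + y + (x + y) by omega),
        Nat.add_sub_cancel_left]⟩
  have key : ∀ ρ σ, ¬ (omegaModel (idealOf Zs) (idealOf_nonempty Zs)).Sat
      (homF (pairT (.var 0) (.var 1))) ρ (Function.update σ 0 {n | c n = true}) := by
    rintro ρ σ ⟨_, ⟨k, H, hH, rfl⟩, h1, h2⟩
    have h3 : ∀ n, ∃ v, n ≤ v ∧ H v = true := fun n => by
      obtain ⟨v, a1, a2⟩ := h1 n
      exact ⟨v, Nat.le_of_lt a1, a2⟩
    rcases h2 with h2 | h2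
    · exact hno H true h3 (fun x y a1 a2 a3 => (hcf x y).symm.trans (h2 x y ⟨a2, a3, a1⟩))
        ((hadm k).mono hH)
    · exact hno H false h3 (fun x y a1 a2 a3 => (hcf x y).symm.trans
        (Bool.eq_false_iff.2 (h2 x y ⟨a2, a3, a1⟩))) ((hadm k).mono hH)
  refine ⟨idealOf Zs, idealOf_nonempty Zs, valid_rca0 Zs hmono, ?_,
    fun ρ σ _ h => key ρ σ (h _ ⟨0, c, hc, rfl⟩ fun x : ℕ => ?_),
    fun ρ σ _ h => key ρ σ (h _ ⟨0, c, hc, rfl⟩)⟩
  · rintro ρ σ - _ ⟨k, d, hd, rfl⟩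
    obtain ⟨m, H, a1, a2, a3⟩ := hsol k d hd
    refine ⟨_, ⟨m, H, a1, rfl⟩, fun n : ℕ => a2 (n + 1),
      a3.imp (fun h x y b => ?_) fun h x y b => ?_⟩
    · exact h x y b.2.2 b.1 b.2.1
    · exact Bool.eq_false_iff.1 ((Bool.not_eq_true' _).mp (h x y b.2.2 b.1 b.2.1))
  · obtain ⟨b, hb⟩ := hst x
    obtain ⟨y, hy⟩ := eventually_atTop.1 hb
    refine ⟨y, fun (w : ℕ) hw => ?_⟩
    have e : c ((x + w) * (x + w) + x) = c ((x + y) * (x + y) + x) := by
      rw [hcf, hcf, hy y le_rfl, hy w (Nat.le_of_lt hw)]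
    exact ⟨fun h => e.symm.trans h, fun h => e.trans h⟩

end Pool.Agent.Results.MP_db6017_lc.NotProvable
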