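import Mathlib
import Pool.Agent.P.MP_db6017_lc.Core

namespace Pool.Agent.Results.MP_db6017_lc.NotWeihrauch

/-- Codes of Turing functionals: the constructors of Mathlib's `Nat.RecursiveIn`
(zero, successor, projections, one oracle, pairing, composition, primitive recursion,
minimisation). -/
inductive Code : Type
  | zero : Code
  | succ : Code
  | left : Code
  | right : Code
  | oracle : Code
  | pair : Code → Code → Code
  | comp : Code → Code → Code
  | prec : Code → Code → Code
  | rfind : Code → Code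

/-- The partial function computed by a code with oracle `g`; the clauses are those of
`Nat.RecursiveIn`. -/
def Code.eval (g : ℕ → ℕ) : Code → ℕ →. ℕ
  | Code.zero => fun _ => Part.some 0
  | Code.succ => fun n => Part.some (n + 1)
  | Code.left => fun n => Part.some n.unpair.1
  | Code.right => fun n => Part.some n.unpair.2
  | Code.oracle => fun n => Part.some (g n)
  | Code.pair a b => fun n => Nat.pair <$> a.eval g n <*> b.eval g n
  | Code.comp a b => fun n => b.eval g n >>= a.eval g
  | Code.prec a b => fun p =>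
      Nat.rec (a.eval g p.unpair.1)
        (fun y ih => ih >>= fun i => b.eval g (Nat.pair p.unpair.1 (Nat.pair y i))) p.unpair.2
  | Code.rfind a => fun x => Nat.rfind fun n => (fun m => decide (m = 0)) <$> a.eval g (Nat.pair x n)

/-- The functional `Φ` with oracle `g` is total and computes `f`. -/
def Computes (Φ : Code) (g f : ℕ → ℕ) : Prop := ∀ n, f n ∈ Φ.eval g n

/-- Two-element subsets of the natural numbers, as increasing pairs. -/
abbrev Pairs : Type := {p : ℕ × ℕ // p.1 < p.2}

/-- A colouring of pairs as an oracle: `Nat.pair x y` goes to the colour of `{x, y}` if `x < y`,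
and to `0` otherwise. -/
def pairName (c : Pairs → Fin 2) : ℕ → ℕ := fun n =>
  if h : n.unpair.1 < n.unpair.2 then (c ⟨n.unpair, h⟩ : ℕ) else 0

/-- The join of two oracles. -/
def join (f g : ℕ → ℕ) : ℕ → ℕ := fun n => if n % 2 = 0 then f (n / 2) else g (n / 2)

/-- `H` is a solution of the instance `c` of Ramsey's theorem for pairs and two colours. -/
def RTSol (c : Pairs → Fin 2) (H : Set ℕ) : Prop :=
  H.Infinite ∧ ∃ i, ∀ x ∈ H, ∀ y ∈ H, ∀ h : x < y, c ⟨(x, y), h⟩ = i

/-- `H` is a solution of the instance `d` of Hindman's theorem for sums of exactly two elements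
and two colours. -/
def HTSol (d : ℕ → Fin 2) (H : Set ℕ) : Prop :=
  H.Infinite ∧ ∃ i, ∀ x ∈ H, ∀ y ∈ H, x < y → d (x + y) = i

/-- Sanity check of the definition: the codes compute exactly the functions that are recursive in
the oracle in the sense of Mathlib. -/
theorem recursiveIn_iff (g : ℕ → ℕ) (f : ℕ →. ℕ) :
    Nat.RecursiveIn {(g : ℕ →. ℕ)} f ↔ ∃ c : Code, c.eval g = f := by
  constructor
  · intro h
    induction h with
    | zero => exact ⟨Code.zero, rfl⟩
    | succ => exact ⟨Code.succ, rfl⟩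
    | left => exact ⟨Code.left, rfl⟩
    | right => exact ⟨Code.right, rfl⟩
    | oracle f hf => exact ⟨Code.oracle, by rw [Set.mem_singleton_iff.mp hf]; rfl⟩
    | pair _ _ iha ihb =>
      obtain ⟨a, rfl⟩ := iha
      obtain ⟨b, rfl⟩ := ihb
      exact ⟨Code.pair a b, rfl⟩
    | comp _ _ iha ihb =>
      obtain ⟨a, rfl⟩ := iha
      obtain ⟨b, rfl⟩ := ihb
      exact ⟨Code.comp a b, rfl⟩
    | prec _ _ iha ihb =>
      obtain ⟨a, rfl⟩ := iha
      obtain ⟨b, rfl⟩ := ihb
      exact ⟨Code.prec a b, rfl⟩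
    | rfind _ iha =>
      obtain ⟨a, rfl⟩ := iha
      exact ⟨Code.rfind a, rfl⟩
  · rintro ⟨c, rfl⟩
    induction c with
    | zero => exact Nat.RecursiveIn.zero
    | succ => exact Nat.RecursiveIn.succ
    | left => exact Nat.RecursiveIn.left
    | right => exact Nat.RecursiveIn.right
    | oracle => exact Nat.RecursiveIn.oracle _ rfl
    | pair a b iha ihb => exact Nat.RecursiveIn.pair iha ihb
    | comp a b iha ihb => exact Nat.RecursiveIn.comp iha ihb
    | prec a b iha ihb => exact Nat.RecursiveIn.prec iha ihb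
    | rfind a iha => exact Nat.RecursiveIn.rfind iha

theorem uniform_use {P : ℕ → (ℕ → ℕ) → Prop} (g : ℕ → ℕ) (K : ℕ)
    (h : ∀ z < K, ∃ u, ∀ g' : ℕ → ℕ, (∀ k < u, g' k = g k) → P z g') :
    ∃ u, ∀ g' : ℕ → ℕ, (∀ k < u, g' k = g k) → ∀ z < K, P z g' := by
  induction K with
  | zero => exact ⟨0, fun _ _ z hz => absurd hz (Nat.not_lt_zero z)⟩
  | succ K ih =>
    obtain ⟨u, hu⟩ := ih (fun z hz => h z (by omega))
    obtain ⟨u', hu'⟩ := h K (by omega)
    refine ⟨max u u', fun g' hg z hz => ?_⟩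
    rcases Nat.lt_succ_iff_lt_or_eq.mp hz with h1 | rfl
    · exact hu g' (fun k hk => hg k (lt_max_of_lt_left hk)) z h1
    · exact hu' g' (fun k hk => hg k (lt_max_of_lt_right hk))

/-- The use principle. -/
theorem use_principle (c : Code) (g : ℕ → ℕ) : ∀ n m : ℕ, m ∈ c.eval g n →
    ∃ u, ∀ g' : ℕ → ℕ, (∀ k < u, g' k = g k) → m ∈ c.eval g' n := by
  induction c with
  | zero => exact fun n m h => ⟨0, fun _ _ => h⟩
  | succ => exact fun n m h => ⟨0, fun _ _ => h⟩
  | left => exact fun n m h => ⟨0, fun _ _ => h⟩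
  | right => exact fun n m h => ⟨0, fun _ _ => h⟩
  | oracle =>
    intro n m h
    refine ⟨n + 1, fun g' hg => ?_⟩
    simp only [Code.eval, Part.mem_some_iff] at h ⊢
    rw [h, hg n (by omega)]
  | pair a b iha ihb =>
    intro n m h
    simp only [Code.eval, Seq.seq, Part.map_eq_map, Part.mem_bind_iff, Part.mem_map_iff] at h ⊢
    obtain ⟨f, ⟨x, hx, rfl⟩, y, hy, rfl⟩ := h
    obtain ⟨u, hu⟩ := iha n x hx
    obtain ⟨u', hu'⟩ := ihb n y hy
    exact ⟨max u u', fun g' hg => ⟨_, ⟨x, hu g' (fun k hk => hg k (lt_max_of_lt_left hk)), rfl⟩,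
      y, hu' g' (fun k hk => hg k (lt_max_of_lt_right hk)), rfl⟩⟩
  | comp a b iha ihb =>
    intro n m h
    simp only [Code.eval, Part.bind_eq_bind, Part.mem_bind_iff] at h ⊢
    obtain ⟨x, hx, hm⟩ := h
    obtain ⟨u, hu⟩ := ihb n x hx
    obtain ⟨u', hu'⟩ := iha x m hm
    exact ⟨max u u', fun g' hg => ⟨x, hu g' (fun k hk => hg k (lt_max_of_lt_left hk)),
      hu' g' (fun k hk => hg k (lt_max_of_lt_right hk))⟩⟩
  | prec a b iha ihb =>
    intro n
    simp only [Code.eval]
    generalize n.unpair.1 = x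
    generalize n.unpair.2 = y
    induction y with
    | zero => exact fun m h => iha x m h
    | succ y ih =>
      intro m h
      simp only [Part.bind_eq_bind, Part.mem_bind_iff] at h ⊢
      obtain ⟨i, hi, hm⟩ := h
      obtain ⟨u, hu⟩ := ih i hi
      obtain ⟨u', hu'⟩ := ihb _ m hm
      exact ⟨max u u', fun g' hg => ⟨i, hu g' (fun k hk => hg k (lt_max_of_lt_left hk)),
        hu' g' (fun k hk => hg k (lt_max_of_lt_right hk))⟩⟩
  | rfind a iha =>
    intro n m h
    simp only [Code.eval, Nat.mem_rfind, Part.map_eq_map, Part.mem_map_iff] at h ⊢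
    obtain ⟨⟨x, hx, hx0⟩, hlt⟩ := h
    obtain ⟨u, hu⟩ := iha _ x hx
    obtain ⟨u', hu'⟩ := uniform_use
      (P := fun z g' => ∃ y ∈ a.eval g' (Nat.pair n z), decide (y = 0) = false) g m (by
        intro z hz
        obtain ⟨y, hy, hy0⟩ := hlt hz
        obtain ⟨w, hw⟩ := iha _ y hy
        exact ⟨w, fun g' hg => ⟨y, hw g' hg, hy0⟩⟩)
    exact ⟨max u u', fun g' hg =>
      ⟨⟨x, hu g' (fun k hk => hg k (lt_max_of_lt_left hk)), hx0⟩,
        fun hz => hu' g' (fun k hk => hg k (lt_max_of_lt_right hk)) _ hz⟩⟩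

open Pool.Agent.P.MP_db6017_lc

/-- The colouring attached to a finite set of events. -/
def evCol (E : Finset ℕ) : Pairs → Fin 2 := fun p =>
  if ∃ e ∈ E, p.1.1 < e ∧ e ≤ p.1.2 then 0 else 1

theorem pairName_agree {E E' : Finset ℕ} {u : ℕ} (h : Agree E E' u) :
    ∀ k < u, pairName (evCol E') k = pairName (evCol E) k := by
  intro k hk
  have hk2 : k.unpair.2 ≤ k := Nat.unpair_right_le k
  unfold pairName
  split_ifs with h1
  · congr 1
    unfold evCol
    have : (∃ e ∈ E', k.unpair.1 < e ∧ e ≤ k.unpair.2) ↔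
        (∃ e ∈ E, k.unpair.1 < e ∧ e ≤ k.unpair.2) := by
      constructor
      · rintro ⟨e, he, h2, h3⟩
        exact ⟨e, (h e (by omega)).mpr he, h2, h3⟩
      · rintro ⟨e, he, h2, h3⟩
        exact ⟨e, (h e (by omega)).mp he, h2, h3⟩
    simp only [this]
  · rfl

theorem evCol_sol {E : Finset ℕ} {G : Set ℕ} (h : RTSol (evCol E) G) :
    ∀ n ∈ G, ∀ e ∈ E, e ≤ n := by
  obtain ⟨hinf, i, hi⟩ := h
  intro n hn e he
  by_contra hne
  obtain ⟨x, hx, hx2⟩ := hinf.exists_gt (E.sup id)
  obtain ⟨y, hy, hy2⟩ := hinf.exists_gt x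
  have h1 := hi x hx y hy hy2
  have he2 : e ≤ E.sup id := Finset.le_sup (f := id) he
  have h2 := hi n hn y hy (by omega)
  unfold evCol at h1 h2
  rw [if_neg] at h1
  · rw [if_pos ⟨e, he, by simp only; omega, by simp only; omega⟩, ← h1] at h2
    exact absurd h2 (by decide)
  · rintro ⟨e', he', h3, _⟩
    have : e' ≤ E.sup id := Finset.le_sup (f := id) he'
    simp only at h3
    omega

/-- Ramsey's theorem for pairs and two colours is not Weihrauch reducible to Hindman's theorem
for sums of exactly two elements and two colours. -/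
theorem result : ¬ ∃ Φ Ψ : Code, ∀ c : Pairs → Fin 2,
    ∃ d : ℕ → Fin 2, Computes Φ (pairName c) (fun n => (d n : ℕ)) ∧
      ∀ H : Set ℕ, HTSol d H →
        ∃ G : Set ℕ, Computes Ψ (join (pairName c) (H.indicator 1)) (G.indicator 1) ∧
          RTSol c G := by
  rintro ⟨Φ, Ψ, h⟩
  choose d hd hΨ using h
  refine no_family (d := fun E => d (evCol E)) ?_ ?_
  · intro E K
    obtain ⟨u, hu⟩ := uniform_use
      (P := fun z g' => (d (evCol E) z : ℕ) ∈ Φ.eval g' z) (pairName (evCol E)) K
      (fun z _ => use_principle Φ _ z _ (hd (evCol E) z))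
    refine ⟨u, fun E' hA z hz => ?_⟩
    exact Fin.ext (Part.mem_unique (hd (evCol E') z) (hu _ (pairName_agree hA) z hz))
  · intro E H hH
    obtain ⟨G, hG, hGs⟩ := hΨ (evCol E) H hH
    obtain ⟨n, hn⟩ := hGs.1.nonempty
    obtain ⟨u, hu⟩ := use_principle Ψ _ n _ (hG n)
    refine ⟨max u (n + 1), fun E' H' hE hH' hs e he => ?_⟩
    obtain ⟨G', hG', hGs'⟩ := hΨ (evCol E') H' hs
    have h1 := hu (join (pairName (evCol E')) (H'.indicator 1)) (by
      intro k hk
      have hk2 : k / 2 < max u (n + 1) := lt_max_of_lt_left (by omega)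
      unfold join
      split_ifs
      · exact pairName_agree hE _ hk2
      · by_cases h3 : k / 2 ∈ H
        · rw [Set.indicator_of_mem h3, Set.indicator_of_mem ((hH' _ hk2).mp h3)]
        · rw [Set.indicator_of_notMem h3,
            Set.indicator_of_notMem (fun h4 => h3 ((hH' _ hk2).mpr h4))])
    have h2 := Part.mem_unique h1 (hG' n)
    rw [Set.indicator_of_mem hn] at h2
    have hn' : n ∈ G' := by
      by_contra h3
      rw [Set.indicator_of_notMem h3] at h2
      exact absurd h2 (by simp)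
    have := evCol_sol hGs' n hn' e he
    exact lt_max_of_lt_right (by omega)

end Pool.Agent.Results.MP_db6017_lc.NotWeihrauch
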